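import Pool.Agent.H20.LIM.Targets

/-! Module EXP1: the exponent on the critical line bounds the limits. -/

set_option autoImplicit false

open Complex MeasureTheory Set Filter Topology Metric

namespace Pool.Agent.H64.LIM

open Pool.Agent.H20.LIM Pool.Agent.H23.GLM Pool.Agent.H23.GLH Pool.Agent.H23.DZ

variable {m : ℕ}

lemma norm_L_le_F (π : LData m) {s : ℂ} (hs : 0 < s.re) (him : 2 ≤ |s.im| ∨ Differentiable ℂ π.L) :
    ‖π.L s‖ ≤ 3 * ‖π.F s‖ := by
  by_cases h : Differentiable ℂ π.L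
  · rw [LData.F_pos h]
    have := norm_nonneg (π.L s)
    linarith
  · obtain ⟨_, _, hL⟩ := LData.zeta_of h
    have him : 2 ≤ |s.im| := him.resolve_right h
    have hs1 : s ≠ 1 := by
      rintro rfl
      simp at him
      linarith
    have hs2 : s - 1 ≠ 0 := sub_ne_zero.2 hs1
    have hs3 : s + 1 ≠ 0 := add_one_ne hs
    rw [LData.F_neg h, hL, Fz_eq hs hs1, norm_mul]
    have h1 : 2 ≤ ‖s - 1‖ := by
      refine him.trans ?_
      have := Complex.abs_im_le_norm (s - 1)
      simpa using this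
    have h2 : 1 / 3 ≤ ‖(s - 1) / (s + 1)‖ := by
      rw [norm_div, le_div_iff₀ (norm_pos_iff.2 hs3)]
      have h3 : ‖s + 1‖ ≤ ‖s - 1‖ + 2 := by
        calc ‖s + 1‖ = ‖(s - 1) + 2‖ := by congr 1; ring
          _ ≤ ‖s - 1‖ + ‖(2 : ℂ)‖ := norm_add_le _ _
          _ = ‖s - 1‖ + 2 := by simp
      linarith
    have h4 := norm_nonneg (riemannZeta s)
    nlinarith

lemma X_big_im (π : LData m) (h : ¬ Differentiable ℂ π.L) {R t : ℝ} (hX : R + 4 ≤ π.X t) {z : ℂ}
    (hz : ‖z‖ ≤ R) : 2 ≤ |(1 / 2 + t * I + z : ℂ).im| := by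
  obtain ⟨hm, hC, _⟩ := LData.zeta_of h
  subst hm
  unfold LData.X at hX
  rw [hC, pow_one, one_mul] at hX
  have h1 := Complex.abs_im_le_norm z
  have h2 : (1 / 2 + t * I + z : ℂ).im = t + z.im := by simp
  rw [h2]
  have h3 : |t| ≤ |t + z.im| + |z.im| := by
    have := abs_sub (t + z.im) z.im
    simpa using this
  linarith

/-- the pointwise bound -/
lemma pointwise {S : Set (LData m)} (hM : Molteni S) {a ε : ℝ} (ha : 0 ≤ a) (hε : 0 < ε)
    (hε1 : ε < 1 / 4) (hB : Bound S (a + ε)) {R : ℝ} (hR : 0 < R) :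
    ∃ C K : ℝ, 1 ≤ C ∧ ∀ π ∈ S, ∀ t : ℝ, K ≤ π.X t → ∀ z : ℂ, 0 < z.re → ‖z‖ ≤ R →
      ‖π.L (1 / 2 + t * I + z)‖ ≤ C * π.X t ^ (a + ε) := by
  obtain ⟨A, hA⟩ := exists_adm hM
  obtain ⟨B, hB⟩ := hB
  obtain ⟨B₂, hB₂⟩ := hM ε hε
  set B₁ := max B (max B₂ 1) with hB₁
  have hB1 : 1 ≤ B₁ := (le_max_right _ _).trans (le_max_right _ _)
  have hBB : B ≤ B₁ := le_max_left _ _
  have hBB2 : B₂ ≤ B₁ := (le_max_left _ _).trans (le_max_right _ _)
  obtain ⟨k, hk⟩ := exists_nat_ge (max (a + ε) 1)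
  have hk1 : a + ε ≤ k := (le_max_left _ _).trans hk
  have hk2 : 1 ≤ k := by
    have : (1 : ℝ) ≤ k := (le_max_right _ _).trans hk
    exact_mod_cast this
  have hA1 := hA.one_le_A
  set w := 1 / 2 + ε with hw
  have hw0 : 0 < w := by positivity
  set C₁ : ℝ := B₁ * 2 ^ (m * k) * (1 + R) ^ (m * k) with hC₁
  have h2mk : (1 : ℝ) ≤ 2 ^ (m * k) := one_le_pow₀ (by norm_num)
  have hRmk : (1 : ℝ) ≤ (1 + R) ^ (m * k) := one_le_pow₀ (by linarith)
  have hC1 : B₁ ≤ C₁ := by
    calc B₁ = B₁ * 1 * 1 := by ring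
      _ ≤ B₁ * 2 ^ (m * k) * (1 + R) ^ (m * k) := by gcongr
  have hC1' : 1 ≤ C₁ := hB1.trans hC1
  refine ⟨3 * C₁, R + 4, by linarith, fun π hπ t ht z hz hzR => ?_⟩
  have hX1 := π.one_le_X t
  have hX0 : 0 < π.X t := by linarith
  have hCX : π.C ≤ π.X t := by
    unfold LData.X
    have h1 := π.one_le_C
    have h2 : (1 : ℝ) ≤ (1 + |t|) ^ m := one_le_pow₀ (by have := abs_nonneg t; linarith)
    nlinarith
  have hXa : 0 ≤ π.X t ^ (a + ε) := by positivity
  rcases le_total w z.re with hwz | hwz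
  · have h1 := hB₂ π hπ (1 / 2 + t * I + z) (by simp; linarith)
    have h2 : π.C ^ ε ≤ π.X t ^ (a + ε) :=
      (Real.rpow_le_rpow (by linarith [π.one_le_C]) hCX hε.le).trans
        (Real.rpow_le_rpow_of_exponent_le hX1 (by linarith))
    have h3 : 0 ≤ π.C ^ ε := Real.rpow_nonneg (by linarith [π.one_le_C]) _
    calc ‖π.L (1 / 2 + t * I + z)‖ ≤ B₂ * π.C ^ ε := h1
      _ ≤ B₁ * π.C ^ ε := by gcongr
      _ ≤ B₁ * π.X t ^ (a + ε) := by gcongr
      _ ≤ (3 * C₁) * π.X t ^ (a + ε) := by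
        gcongr
        linarith
  · have hconv := conv_right (f := fun z => π.F (1 / 2 + t * I + z)) (Q := π.X t) (A := A)
      (B := B₁) (a := a + ε) (w := w) (δ := ε) (k := k) (n := m) ?_ hX1 (by linarith) ?_
      (by linarith) hk1 (by linarith) hw0 ?_ ?_ hz.le hwz
    · have h4 : ‖π.F (1 / 2 + t * I + z)‖ ≤ C₁ * π.X t ^ (a + ε) := by
        refine hconv.trans ?_
        have h5 : ‖1 + z‖ ≤ 1 + R := by
          calc ‖1 + z‖ ≤ ‖(1 : ℂ)‖ + ‖z‖ := norm_add_le _ _
            _ ≤ 1 + R := by simpa using hzR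
        have h6 : π.X t ^ (a + ε - (a + ε - ε) / w * z.re) ≤ π.X t ^ (a + ε) := by
          refine Real.rpow_le_rpow_of_exponent_le hX1 ?_
          have : 0 ≤ (a + ε - ε) / w * z.re :=
            mul_nonneg (div_nonneg (by linarith) hw0.le) hz.le
          linarith
        rw [hC₁]
        gcongr
      have h7 := norm_L_le_F π (s := 1 / 2 + t * I + z) (by simp; linarith) (by
        by_cases h : Differentiable ℂ π.L
        · exact Or.inr h
        · exact Or.inl (X_big_im π h ht hzR))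
      linarith
    · intro z hz
      have h8 := hA.diff ⟨π, hπ⟩
      have h9 : (1 / 2 + t * I + z : ℂ) ∈ {s : ℂ | 0 < s.re} := by
        show (0:ℝ) < (1 / 2 + t * I + z : ℂ).re
        simp
        linarith
      have h10 : DifferentiableAt ℂ π.F (1 / 2 + t * I + z) :=
        (h8.differentiableAt ((isOpen_lt continuous_const Complex.continuous_re).mem_nhds h9))
      exact h10.comp z (by fun_prop)
    · intro z hz
      have h8 := hA.grow ⟨π, hπ⟩ (1 / 2 + t * I + z) (by simp; linarith)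
      simp only at h8
      refine h8.trans ?_
      have h9 : (1 / 2 + t * I + z : ℂ).im = t + z.im := by simp
      rw [h9, pow_one]
      have h10 : π.C * (1 + |t + z.im|) ^ m ≤ π.X t * (1 + |z.im|) ^ m := by
        unfold LData.X
        rw [mul_assoc, ← mul_pow]
        have h11 := π.one_le_C
        have h12 : 1 + |t + z.im| ≤ (1 + |t|) * (1 + |z.im|) := by
          have := abs_add_le t z.im
          have h13 := mul_nonneg (abs_nonneg t) (abs_nonneg z.im)
          nlinarith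
        gcongr
      have h11 : 1 ≤ π.X t * (1 + |z.im|) ^ m := by
        have : (1 : ℝ) ≤ (1 + |z.im|) ^ m := one_le_pow₀ (by have := abs_nonneg z.im; linarith)
        nlinarith
      have h12 : π.X t * (1 + |z.im|) ^ m ≤ (π.X t * (1 + |z.im|) ^ m) ^ k :=
        le_self_pow₀ h11 (by omega)
      have h13 := h10.trans h12
      gcongr
    · intro v
      have h8 : (1 / 2 + t * I + v * I : ℂ) = 1 / 2 + ((t + v : ℝ) : ℂ) * I := by
        push_cast
        ring
      simp only [h8]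
      refine (norm_F_le_L π (t + v)).1.trans ((hB π hπ (t + v)).trans ?_)
      have h10 : π.X (t + v) ≤ π.X t * (1 + |v|) ^ m := by
        unfold LData.X
        rw [mul_assoc, ← mul_pow]
        have h11 := π.one_le_C
        have h12 : 1 + |t + v| ≤ (1 + |t|) * (1 + |v|) := by
          have := abs_add_le t v
          have h13 := mul_nonneg (abs_nonneg t) (abs_nonneg v)
          nlinarith
        gcongr
      have h11 := π.one_le_X (t + v)
      have h12 : π.X (t + v) ^ (a + ε) ≤ (π.X t * (1 + |v|) ^ m) ^ (a + ε) :=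
        Real.rpow_le_rpow (by linarith) h10 (by linarith)
      have h13 : 0 ≤ π.X (t + v) ^ (a + ε) := by positivity
      calc B * π.X (t + v) ^ (a + ε) ≤ B₁ * π.X (t + v) ^ (a + ε) := by gcongr
        _ ≤ _ := by gcongr
    · intro z hz
      have hre : (1 / 2 + t * I + z : ℂ).re = 1 + ε := by
        simp
        rw [hz, hw]
        ring
      have h1 := hB₂ π hπ (1 / 2 + t * I + z) hre.ge
      have h2 : π.C ^ ε ≤ π.X t ^ ε :=
        Real.rpow_le_rpow (by linarith [π.one_le_C]) hCX hε.le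
      have h3 : 0 ≤ π.C ^ ε := Real.rpow_nonneg (by linarith [π.one_le_C]) _
      have h4 : ‖π.F (1 / 2 + t * I + z)‖ ≤ ‖π.L (1 / 2 + t * I + z)‖ := by
        by_cases h : Differentiable ℂ π.L
        · rw [LData.F_pos h]
        · obtain ⟨_, _, hL⟩ := LData.zeta_of h
          rw [LData.F_neg h, hL]
          exact norm_Fz_le_zeta (by rw [hre]; linarith)
      calc ‖π.F (1 / 2 + t * I + z)‖ ≤ ‖π.L (1 / 2 + t * I + z)‖ := h4
        _ ≤ B₂ * π.C ^ ε := h1
        _ ≤ B₁ * π.C ^ ε := by gcongr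
        _ ≤ B₁ * π.X t ^ ε := by gcongr

/-- an upper bound passes to `L^1` limits -/
lemma limit_le {f : ℕ → ℂ → ℝ} {u : ℂ → ℝ} (h : ToL1 f u) {R b : ℝ} {E : Set ℂ}
    (hE : E ⊆ closedBall 0 R) (hEm : MeasurableSet E)
    (hf : ∀ᶠ k in atTop, ∀ z ∈ E, f k z ≤ b) : ∀ᵐ z : ℂ, z ∈ E → u z ≤ b := by
  obtain ⟨hu, hlim⟩ := h
  have h1 : ∫⁻ z in E, ENNReal.ofReal (u z - b) = 0 := by
    have h2 : ∀ᶠ k in atTop, ∫⁻ z in E, ENNReal.ofReal (u z - b) ≤
        ∫⁻ z in closedBall (0 : ℂ) R, ‖f k z - u z‖ₑ := by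
      filter_upwards [hf] with k hk
      calc ∫⁻ z in E, ENNReal.ofReal (u z - b)
          ≤ ∫⁻ z in E, ‖f k z - u z‖ₑ := by
            refine setLIntegral_mono' hEm fun z hz => ?_
            have h3 := hk z hz
            rw [← ofReal_norm, Real.norm_eq_abs]
            refine ENNReal.ofReal_le_ofReal ?_
            rw [abs_sub_comm]
            exact le_trans (by linarith) (le_abs_self _)
        _ ≤ _ := lintegral_mono_set hE
    have h3 := ge_of_tendsto (hlim R) h2
    exact le_antisymm h3 bot_le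
  have h2 : AEMeasurable (fun z => ENNReal.ofReal (u z - b)) (volume.restrict E) :=
    ((hu.aemeasurable.restrict).sub_const b).ennreal_ofReal
  rw [lintegral_eq_zero_iff' h2] at h1
  rw [Filter.EventuallyEq, ae_restrict_iff' hEm] at h1
  filter_upwards [h1] with z hz hzE
  have h3 := hz hzE
  simp only [Pi.zero_apply, ENNReal.ofReal_eq_zero] at h3
  linarith

theorem pf_exp1 : T_EXP1 := by
  intro m S hM a ha hB q u hlim
  obtain ⟨π, t, hπ, hX, _, hL1⟩ := hlim
  have key : ∀ (R : ℝ) (ε : ℝ), 0 < R → 0 < ε → ε < 1 / 4 →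
      ∀ᵐ z : ℂ, z ∈ closedBall (0 : ℂ) R ∩ {z | 0 < z.re} → u z ≤ a + 2 * ε := by
    intro R ε hR hε hε1
    refine limit_le hL1 (R := R) inter_subset_left
      (isClosed_closedBall.measurableSet.inter
        (isOpen_lt continuous_const Complex.continuous_re).measurableSet) ?_
    obtain ⟨C, K, hC, hK⟩ := pointwise hM ha hε hε1 (hB ε hε) hR
    have h1 : ∀ᶠ k in atTop, max K (Real.exp (Real.log C / ε + 1)) ≤ (π k).X (t k) :=
      hX.eventually_ge_atTop _
    filter_upwards [h1] with k hk z hz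
    have hk1 : K ≤ (π k).X (t k) := (le_max_left _ _).trans hk
    have hk2 : Real.exp (Real.log C / ε + 1) ≤ (π k).X (t k) := (le_max_right _ _).trans hk
    have hX0 : 0 < (π k).X (t k) := (Real.exp_pos _).trans_le hk2
    have hlX : Real.log C / ε + 1 ≤ Real.log ((π k).X (t k)) := by
      rw [Real.le_log_iff_exp_le hX0]
      exact hk2
    have hlC : 0 ≤ Real.log C := Real.log_nonneg hC
    have hlX0 : 0 < Real.log ((π k).X (t k)) := by
      have : 0 ≤ Real.log C / ε := by positivity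
      linarith
    have h2 := hK (π k) (hπ k) (t k) hk1 z hz.2 (by simpa using hz.1)
    unfold U
    rw [div_le_iff₀ hlX0]
    have h3 : Real.log C ≤ ε * Real.log ((π k).X (t k)) := by
      have h4 : ε * (Real.log C / ε + 1) ≤ ε * Real.log ((π k).X (t k)) := by gcongr
      have h5 : ε * (Real.log C / ε + 1) = Real.log C + ε := by field_simp
      linarith
    rcases eq_or_ne (‖(π k).L (1 / 2 + t k * I + z)‖) 0 with h0 | h0
    · rw [h0, Real.log_zero]
      positivity
    · have h4 : Real.log ‖(π k).L (1 / 2 + t k * I + z)‖ ≤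
          Real.log (C * (π k).X (t k) ^ (a + ε)) :=
        Real.log_le_log (lt_of_le_of_ne (norm_nonneg _) (Ne.symm h0)) h2
      rw [Real.log_mul (by linarith) (by positivity), Real.log_rpow hX0] at h4
      nlinarith
  have key2 : ∀ n : ℕ, ∀ᵐ z : ℂ, z ∈ closedBall (0 : ℂ) (n + 1) ∩ {z | 0 < z.re} →
      u z ≤ a + 2 * (1 / ((n : ℝ) + 5)) := by
    intro n
    refine key _ _ (by positivity) (by positivity) ?_
    rw [div_lt_div_iff₀ (by positivity) (by norm_num)]
    have : (0 : ℝ) ≤ n := Nat.cast_nonneg n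
    linarith
  rw [← ae_all_iff] at key2
  filter_upwards [key2] with z hz hz0
  refine le_of_forall_pos_le_add fun δ hδ => ?_
  obtain ⟨n, hn⟩ := exists_nat_ge (max ‖z‖ (2 / δ))
  have hn1 : ‖z‖ ≤ n := (le_max_left _ _).trans hn
  have hn2 : 2 / δ ≤ n := (le_max_right _ _).trans hn
  have h1 := hz n ⟨by simp; linarith, hz0⟩
  refine h1.trans ?_
  have h2 : 2 * (1 / ((n : ℝ) + 5)) ≤ δ := by
    rw [mul_one_div, div_le_iff₀ (by positivity)]
    rw [div_le_iff₀ hδ] at hn2
    nlinarith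
  linarith

end Pool.Agent.H64.LIM
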