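import Pool.Agent.H20.LIM.Targets

/-! Module INV: the power series of `1/P`. -/

set_option autoImplicit false

open Complex MeasureTheory Set Filter Topology Metric

namespace Pool.Agent.H64.LIM

open Pool.Agent.H20.LIM Pool.Agent.H23.GLM Pool.Agent.H23.DZ

theorem pf_inv : T_INV := by
  intro P ρ A hρ hP
  obtain ⟨ρ', hρ'⟩ : ∃ ρ' : NNReal, (ρ' : ℝ) = ρ := ⟨⟨ρ, hρ.le⟩, rfl⟩
  set f : ℂ → ℂ := fun Y => (P.eval Y)⁻¹ with hf
  have hd : DifferentiableOn ℂ f (closedBall 0 ρ) := by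
    intro Y hY
    have h0 : P.eval Y ≠ 0 := (hP Y (by simpa using hY)).1
    exact (P.differentiable.differentiableAt.inv h0).differentiableWithinAt
  have hps := DifferentiableOn.hasFPowerSeriesOnBall (R := ρ') (c := (0 : ℂ)) (f := f)
    (by rw [hρ']; exact hd) (by rw [← NNReal.coe_pos, hρ']; exact hρ)
  rw [hρ'] at hps
  refine ⟨fun n => (cauchyPowerSeries f 0 ρ).coeff n, fun n => ?_, fun Y hY => ?_⟩
  · have h1 : ‖(cauchyPowerSeries f 0 ρ).coeff n‖ ≤ ‖cauchyPowerSeries f 0 ρ n‖ := by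
      rw [FormalMultilinearSeries.norm_apply_eq_norm_coef]
    have h2 := norm_cauchyPowerSeries_le f 0 ρ n
    have h3 : ∀ θ : ℝ, ‖f (circleMap 0 ρ θ)‖ ≤ Real.exp A := by
      intro θ
      have h4 := hP (circleMap 0 ρ θ) (by simp [abs_of_pos hρ])
      have h5 : 0 < ‖P.eval (circleMap 0 ρ θ)‖ := norm_pos_iff.2 h4.1
      rw [hf]
      simp only [norm_inv]
      rw [← Real.exp_log h5, ← Real.exp_neg]
      exact Real.exp_le_exp.2 (by linarith [neg_abs_le (Real.log ‖P.eval (circleMap 0 ρ θ)‖)])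
    have h4 : ∫ θ in (0 : ℝ)..2 * Real.pi, ‖f (circleMap 0 ρ θ)‖ ≤ 2 * Real.pi * Real.exp A := by
      have h5 := intervalIntegral.norm_integral_le_of_norm_le_const
        (a := 0) (b := 2 * Real.pi) (f := fun θ => ‖f (circleMap 0 ρ θ)‖) (C := Real.exp A)
        (fun θ _ => by simpa using h3 θ)
      rw [sub_zero, abs_of_pos (by positivity)] at h5
      have h6 := le_abs_self (∫ θ in (0 : ℝ)..2 * Real.pi, ‖f (circleMap 0 ρ θ)‖)
      rw [Real.norm_eq_abs] at h5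
      linarith
    rw [abs_of_pos hρ] at h2
    have hpi := Real.pi_pos
    have h5 : (2 * Real.pi)⁻¹ * (∫ θ in (0 : ℝ)..2 * Real.pi, ‖f (circleMap 0 ρ θ)‖) ≤
        Real.exp A := by
      rw [inv_mul_le_iff₀ (by positivity)]
      exact h4
    calc ‖(cauchyPowerSeries f 0 ρ).coeff n‖ * ρ ^ n
        ≤ (((2 * Real.pi)⁻¹ * ∫ θ in (0 : ℝ)..2 * Real.pi, ‖f (circleMap 0 ρ θ)‖) *
            ρ⁻¹ ^ n) * ρ ^ n := by gcongr; exact h1.trans h2
      _ = (2 * Real.pi)⁻¹ * (∫ θ in (0 : ℝ)..2 * Real.pi, ‖f (circleMap 0 ρ θ)‖) := by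
        rw [mul_assoc, ← mul_pow, inv_mul_cancel₀ hρ.ne', one_pow, mul_one]
      _ ≤ Real.exp A := h5
  · have h1 := hps.hasSum (y := Y) (by
      rw [Metric.mem_eball, edist_dist, dist_zero_right]
      rw [← hρ'] at hY
      rw [ENNReal.ofReal_lt_coe_iff (norm_nonneg _)]
      exact_mod_cast hY)
    simp only [zero_add] at h1
    have h2 : (fun n => (cauchyPowerSeries f 0 ρ n) fun _ => Y) =
        fun n => (cauchyPowerSeries f 0 ρ).coeff n * Y ^ n := by
      funext n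
      rw [FormalMultilinearSeries.apply_eq_pow_smul_coeff, smul_eq_mul, mul_comm]
    rw [h2] at h1
    exact h1

end Pool.Agent.H64.LIM
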